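import Mathlib
import Pool.Agent.Helper13.TU.Defs

/-!
# TU-11: real quadratic subfields
-/

set_option autoImplicit false

open NumberField Polynomial Module IntermediateField

namespace Pool.Agent.Helper13.TU

theorem rq_pell_unbounded (D : ℤ) (hD : 0 < D) (hns : ¬ IsSquare D) (N : ℕ) :
    ∃ x y : ℤ, x ^ 2 - D * y ^ 2 = 1 ∧ (N : ℤ) + 2 ≤ x ∧ 0 < y := by
  induction N with
  | zero =>
    obtain ⟨x, y, hxy, hy⟩ := Pell.exists_of_not_isSquare hD hns
    refine ⟨|x|, |y|, by simpa using hxy, ?_, abs_pos.mpr hy⟩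
    have hy1 : 1 ≤ y ^ 2 := by
      have : 0 < y ^ 2 := by positivity
      omega
    have hD2 : 2 ≤ D := by
      by_contra h
      have : D = 1 := by omega
      exact hns ⟨1, by simp [this]⟩
    have h1 : 3 ≤ x ^ 2 := by nlinarith
    by_contra h
    have h2 : |x| ≤ 1 := by push_cast at h; omega
    have h3 : x ^ 2 ≤ 1 := by
      rw [← sq_abs]
      have := abs_nonneg x
      nlinarith
    omega
  | succ N ih =>
    obtain ⟨x, y, hxy, hx, hy⟩ := ih
    refine ⟨x ^ 2 + D * y ^ 2, 2 * x * y, ?_, ?_, ?_⟩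
    · have : (x ^ 2 + D * y ^ 2) ^ 2 - D * (2 * x * y) ^ 2 = (x ^ 2 - D * y ^ 2) ^ 2 := by ring
      rw [this, hxy]; norm_num
    · push_cast
      have : 0 ≤ D * y ^ 2 := by positivity
      nlinarith
    · have : 0 < x := by omega
      positivity

theorem rq_exists_sqrt {L : Type*} [Field L] [NumberField L] (h2 : finrank ℚ L = 2)
    (hr : Nonempty (L →+* ℝ)) :
    ∃ (D : ℤ) (s : L), 0 < D ∧ ¬ IsSquare D ∧ s ^ 2 = (D : L) := by
  obtain ⟨φ⟩ := hr
  -- an element outside ℚ
  have hne : ∃ t : L, t ∉ (⊥ : Subalgebra ℚ L) := by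
    by_contra hcon
    push Not at hcon
    have : (⊥ : Subalgebra ℚ L) = ⊤ := by
      ext x; simp [hcon x]
    have h1 := Subalgebra.bot_eq_top_iff_finrank_eq_one.mp this
    omega
  obtain ⟨t, ht⟩ := hne
  -- 1, t, t^2 are dependent
  have hdep : ¬ LinearIndependent ℚ (fun i : Fin 3 => t ^ (i : ℕ)) := by
    intro h
    have := h.fintype_card_le_finrank
    simp [h2] at this
  rw [Fintype.not_linearIndependent_iff] at hdep
  obtain ⟨g, hg, i, hi⟩ := hdep
  simp only [Fin.sum_univ_three, Fin.val_zero, pow_zero, Fin.val_one, pow_one, Fin.val_two] at hg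
  -- coefficient of t^2 is nonzero
  have hg2 : g 2 ≠ 0 := by
    intro h0
    rw [h0, zero_smul, add_zero] at hg
    by_cases hg1 : g 1 = 0
    · rw [hg1, zero_smul, add_zero] at hg
      have hg0 : g 0 = 0 := by
        by_contra h
        rcases smul_eq_zero.mp hg with h' | h'
        · exact h h'
        · exact one_ne_zero h'
      fin_cases i <;> simp_all
    · apply ht
      rw [Algebra.mem_bot]
      refine ⟨-(g 0) / g 1, ?_⟩
      rw [Algebra.smul_def, Algebra.smul_def] at hg
      have hg1' : (algebraMap ℚ L (g 1)) ≠ 0 := by simpa using hg1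
      rw [map_div₀, map_neg]
      field_simp
      linear_combination -hg
  -- complete the square
  set a : ℚ := g 1 / (2 * g 2) with ha
  set q : ℚ := a ^ 2 - g 0 / g 2 with hq
  have hsq : (t + algebraMap ℚ L a) ^ 2 = algebraMap ℚ L q := by
    rw [Algebra.smul_def, Algebra.smul_def, Algebra.smul_def] at hg
    have hg2' : (algebraMap ℚ L (g 2)) ≠ 0 := by simpa using hg2
    have h1 : t ^ 2 = -(algebraMap ℚ L (g 0) / algebraMap ℚ L (g 2)) -
        algebraMap ℚ L (g 1) / algebraMap ℚ L (g 2) * t := by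
      field_simp
      linear_combination hg
    have h3 : algebraMap ℚ L a = algebraMap ℚ L (g 1) / (2 * algebraMap ℚ L (g 2)) := by
      rw [ha, map_div₀, map_mul]; simp
    have h2' : algebraMap ℚ L q =
        (algebraMap ℚ L a) ^ 2 - algebraMap ℚ L (g 0) / algebraMap ℚ L (g 2) := by
      rw [hq, map_sub, map_div₀, map_pow]
    rw [h2', add_sq, h1, h3]
    field_simp
    ring
  -- clear denominators
  set s : L := (q.den : L) * (t + algebraMap ℚ L a) with hs
  have hss : s ^ 2 = ((q.num * q.den : ℤ) : L) := by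
    rw [hs, mul_pow, hsq]
    have hq' : algebraMap ℚ L q = (q.num : L) / (q.den : L) := by
      rw [eq_ratCast]
      exact Rat.cast_def q
    have hden : (q.den : L) ≠ 0 := by exact_mod_cast q.den_ne_zero
    rw [hq']
    push_cast
    field_simp
  have hsnot : s ∉ (⊥ : Subalgebra ℚ L) := by
    intro h
    apply ht
    have hden : (q.den : L) ≠ 0 := by exact_mod_cast q.den_ne_zero
    have : t = (algebraMap ℚ L (1 / (q.den : ℚ))) * s - algebraMap ℚ L a := by
      rw [hs, map_div₀]
      simp only [map_one, map_natCast]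
      field_simp
      ring
    rw [this]
    exact Subalgebra.sub_mem _ (Subalgebra.mul_mem _ (Subalgebra.algebraMap_mem _ _) h)
      (Subalgebra.algebraMap_mem _ _)
  refine ⟨q.num * q.den, s, ?_, ?_, hss⟩
  · have h1 : (φ s) ^ 2 = ((q.num * q.den : ℤ) : ℝ) := by
      rw [← map_pow, hss]; simp
    have h2' : 0 ≤ ((q.num * q.den : ℤ) : ℝ) := by rw [← h1]; positivity
    have h3 : 0 ≤ q.num * q.den := by exact_mod_cast h2'
    rcases h3.lt_or_eq with h | h
    · exact h
    · exfalso
      rw [← h] at hss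
      have : s = 0 := by simpa using hss
      exact hsnot (this ▸ Subalgebra.zero_mem _)
  · rintro ⟨r, hr⟩
    rw [hr] at hss
    have : (s - (r : L)) * (s + (r : L)) = 0 := by
      push_cast at hss
      linear_combination hss
    rcases mul_eq_zero.mp this with h | h
    · apply hsnot
      rw [sub_eq_zero.mp h]
      exact Algebra.mem_bot.mpr ⟨(r : ℚ), by simp⟩
    · apply hsnot
      rw [eq_neg_of_add_eq_zero_left h]
      exact Algebra.mem_bot.mpr ⟨-(r : ℚ), by simp⟩

variable {K : Type*} [Field K] [NumberField K]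

theorem infinite_of_real_quadratic {L : Type*} [Field L] [NumberField L] [Algebra L K]
    (h2 : finrank ℚ L = 2) (hr : Nonempty (L →+* ℝ)) : (NSet K).Infinite := by
  obtain ⟨D, s, hD, hns, hs⟩ := rq_exists_sqrt h2 hr
  set σ : K := algebraMap L K s with hσ
  have hσ2 : σ ^ 2 = (D : K) := by rw [hσ, ← map_pow, hs]; simp
  have hint : IsIntegral ℤ σ := by
    refine ⟨X ^ 2 - C D, by
      apply Polynomial.monic_X_pow_sub_C; norm_num, ?_⟩
    rw [eval₂_sub, eval₂_pow, eval₂_X, eval₂_C, hσ2]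
    simp
  apply Set.infinite_of_forall_exists_gt
  intro N
  obtain ⟨x, y, hxy, hx, hy⟩ := rq_pell_unbounded D hD hns N
  refine ⟨(2 * x).toNat, ?_, ?_⟩
  · refine ⟨by omega, ?_⟩
    have hxyK : (x : K) ^ 2 - (D : K) * (y : K) ^ 2 = 1 := by exact_mod_cast congrArg (Int.cast : ℤ → K) hxy
    let S : 𝓞 K := ⟨σ, hint⟩
    have hS : (S : K) = σ := rfl
    have hmul : ((x : 𝓞 K) + (y : 𝓞 K) * S) * ((x : 𝓞 K) - (y : 𝓞 K) * S) = 1 := by
      apply RingOfIntegers.coe_injective
      simp only [map_mul, map_add, map_sub, map_intCast, map_one]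
      change ((x : K) + (y : K) * σ) * ((x : K) - (y : K) * σ) = 1
      linear_combination hxyK - (y : K) ^ 2 * hσ2
    refine ⟨⟨_, _, hmul, by rw [mul_comm]; exact hmul⟩, ⟨_, _, by rw [mul_comm]; exact hmul, hmul⟩, ?_⟩
    simp only [map_add, map_sub, map_mul, map_intCast]
    have h1 : (((2 * x).toNat : ℕ) : K) = 2 * (x : K) := by
      have : (((2 * x).toNat : ℕ) : ℤ) = 2 * x := Int.toNat_of_nonneg (by omega)
      calc (((2 * x).toNat : ℕ) : K) = ((((2 * x).toNat : ℕ) : ℤ) : K) := by push_cast; rfl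
        _ = ((2 * x : ℤ) : K) := by rw [this]
        _ = 2 * (x : K) := by push_cast; rfl
    rw [h1]
    ring
  · omega

theorem degree_of_involution {F : Type*} [Field F] [NumberField F] (hr : Nonempty (F →+* ℝ))
    (τ : F ≃ₐ[ℚ] F) (h1 : τ ≠ 1) (h2 : τ * τ = 1) :
    Even (finrank ℚ F) ∧ (finrank ℚ F < 6 →
      ∃ L : IntermediateField ℚ F, finrank ℚ L = 2 ∧ Nonempty (L →+* ℝ)) := by
  obtain ⟨φ⟩ := hr
  set H : Subgroup (F ≃ₐ[ℚ] F) := Subgroup.zpowers τ with hH
  have hcard : Nat.card H = 2 := by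
    rw [hH, Nat.card_zpowers]
    exact orderOf_eq_prime (by rw [pow_two]; exact h2) h1
  have hE : finrank (fixedField H) F = 2 := by
    rw [finrank_fixedField_eq_card, hcard]
  have hmul : finrank ℚ (fixedField H) * finrank (fixedField H) F = finrank ℚ F :=
    finrank_mul_finrank ℚ (fixedField H) F
  have hpos : 0 < finrank ℚ (fixedField H) := finrank_pos
  refine ⟨⟨finrank ℚ (fixedField H), by rw [← hmul, hE]; ring⟩, fun h6 => ?_⟩
  have hlt : finrank ℚ (fixedField H) < 3 := by
    rw [← hmul, hE] at h6; omega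
  interval_cases hf : finrank ℚ (fixedField H)
  · refine ⟨⊤, ?_, ⟨φ.comp (algebraMap (⊤ : IntermediateField ℚ F) F)⟩⟩
    rw [IntermediateField.finrank_top', ← hmul, hE]
  · exact ⟨fixedField H, hf, ⟨φ.comp (algebraMap (fixedField H) F)⟩⟩

end Pool.Agent.Helper13.TU
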